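import Pool.Agent.Work.MP_e4a69c_an.QT.Defs

/-! Quotients: algebra of the associated bundle. -/

set_option autoImplicit false

namespace Pool.Agent.Work.MP_e4a69c_an.QT

open scoped Manifold ContDiff Topology Bundle
open Bundle
open Pool.Agent.Work.MP_e4a69c_an.SU Pool.Agent.Work.MP_e4a69c_an.ML

section

variable {𝔤 : Type} [NormedAddCommGroup 𝔤] [NormedSpace ℂ 𝔤]
variable {G : Type} [TopologicalSpace G] [ChartedSpace 𝔤 G] [Group G] [LieGroup 𝓘(ℂ, 𝔤) ω G]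
variable {H : Type} [NormedAddCommGroup H] [NormedSpace ℂ H]
variable {Z : Type} [TopologicalSpace Z] [ChartedSpace H Z] [MulAction G Z]
variable {V : Type} [NormedAddCommGroup V] [NormedSpace ℂ V]
variable {W : Type} [NormedAddCommGroup W] [NormedSpace ℂ W]
variable {N : Subgroup G} {ρ : GMod 𝔤 G V} {U : Set V} {q : V → Z}

namespace PData

variable (D : PData H N ρ U q) (σ : GMod 𝔤 G W)

theorem mk_eq {z z' : Z} {w w' : W} (hz : z = z') (hw : w = w') :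
    (⟨z, w⟩ : TotalSpace W (D.core σ).Fiber) = ⟨z', w'⟩ := by
  subst hz
  subst hw
  rfl

theorem Ψ_mk (p : TotalSpace W (D.core σ).Fiber) :
    D.Ψ σ (D.t p.1 p.1) (p.2 : W) = p := by
  obtain ⟨z, w⟩ := p
  have h1 := D.qt z z (D.mem z)
  have key : ∀ w : W, σ.act (D.ν (q (D.t z z)) (D.t z z))⁻¹ w = w := by
    intro w
    rw [h1, D.ν_t z (D.mem z), inv_one, GMod.act_one]
  exact D.mk_eq σ h1 (key w)

theorem Ψ_inv {n : G} (hn : n ∈ N) {x : V} (hx : x ∈ U) (w : W) :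
    D.Ψ σ (ρ.act n x) (σ.act n w) = D.Ψ σ x w := by
  refine D.mk_eq σ (D.q_act hn hx) ?_
  rw [D.q_act hn hx, D.ν_act (q x) hn hx (D.mem _), mul_inv_rev, GMod.act_mul, GMod.act_inv_act]

theorem Ψ_inv' {n : G} (hn : n ∈ N) {x : V} (hx : x ∈ U) (w : W) :
    D.Ψ σ (ρ.act n x) w = D.Ψ σ x (σ.act n⁻¹ w) := by
  have h := D.Ψ_inv σ hn hx (σ.act n⁻¹ w)
  rw [GMod.act_act_inv] at h
  exact h

theorem localTriv_Ψ (c : Z) {x : V} (hx : x ∈ U) (hc : q x ∈ D.O c) (w : W) :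
    (D.core σ).localTriv c (D.Ψ σ x w) = (q x, σ.act (D.ν c x)⁻¹ w) := by
  refine Prod.ext rfl ?_
  show σ.act (D.ν c (D.t (q x) (q x)))⁻¹ (σ.act (D.ν (q x) x)⁻¹ w) = σ.act (D.ν c x)⁻¹ w
  rw [← GMod.act_mul, ← mul_inv_rev, D.ν_comp (q x) c hx (D.mem _) hc]

/-- a point of the bundle in the chart `c` -/
theorem eq_Ψ (c : Z) (p : TotalSpace W (D.core σ).Fiber) (hc : p.1 ∈ D.O c) :
    p = D.Ψ σ (D.t c p.1) ((D.core σ).localTriv c p).2 := by
  have hU := D.tU c p.1 hc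
  have hq := D.qt c p.1 hc
  have h0 : p.1 ∈ (D.core σ).baseSet c := hc
  apply ((D.core σ).localTriv c).injOn
  · rw [Trivialization.mem_source]; exact hc
  · rw [Trivialization.mem_source]
    show q (D.t c p.1) ∈ D.O c
    rw [hq]; exact hc
  · show (D.core σ).localTriv c p = (D.core σ).localTriv c
      (D.Ψ σ (D.t c p.1) ((D.core σ).localTriv c p).2)
    rw [D.localTriv_Ψ σ c hU (by rw [hq]; exact hc), hq, D.ν_t c hc, inv_one, GMod.act_one]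
    rfl

variable [hN : N.Normal]

theorem act_Ψ (g : G) {x : V} (hx : x ∈ U) (w : W) :
    D.act σ g (D.Ψ σ x w) = D.Ψ σ (ρ.act g x) (σ.act g w) := by
  have hm := D.mem (q x)
  have h1 := D.νt (q x) x hx hm
  have hn := D.νN (q x) x hx hm
  have hU := D.tU (q x) (q x) hm
  have hgU := D.pr.stab g _ hU
  show D.Ψ σ (ρ.act g (D.t (q x) (q x))) (σ.act g (σ.act (D.ν (q x) x)⁻¹ w)) = _
  have h2 : ρ.act g x = ρ.act (g * D.ν (q x) x * g⁻¹) (ρ.act g (D.t (q x) (q x))) := by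
    rw [← GMod.act_mul]
    rw [show g * D.ν (q x) x * g⁻¹ * g = g * D.ν (q x) x by group]
    rw [GMod.act_mul, h1]
  rw [h2, D.Ψ_inv' σ (hN.conj_mem _ hn g) hgU]
  congr 1
  rw [← GMod.act_mul, ← GMod.act_mul]
  congr 2
  group

omit hN in
theorem act_one' (p : TotalSpace W (D.core σ).Fiber) : D.act σ 1 p = p := by
  have key : ∀ (x : V) (w : W), D.Ψ σ (ρ.act 1 x) (σ.act 1 w) = D.Ψ σ x w := by
    intro x w
    rw [GMod.act_one, GMod.act_one]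
  exact (key (D.t p.1 p.1) p.2).trans (D.Ψ_mk σ p)

theorem act_mul' (g h : G) (p : TotalSpace W (D.core σ).Fiber) :
    D.act σ (g * h) p = D.act σ g (D.act σ h p) := by
  have hU := D.tU p.1 p.1 (D.mem _)
  show D.Ψ σ (ρ.act (g * h) (D.t p.1 p.1)) (σ.act (g * h) (p.2 : W)) =
    D.act σ g (D.Ψ σ (ρ.act h (D.t p.1 p.1)) (σ.act h (p.2 : W)))
  rw [D.act_Ψ σ g (D.pr.stab h _ hU)]
  have key : ∀ w : W, D.Ψ σ (ρ.act (g * h) (D.t p.1 p.1)) (σ.act (g * h) w) =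
      D.Ψ σ (ρ.act g (ρ.act h (D.t p.1 p.1))) (σ.act g (σ.act h w)) := by
    intro w
    rw [GMod.act_mul, GMod.act_mul]
  exact key p.2

omit hN in
theorem act_N {n : G} (hn : n ∈ N) (p : TotalSpace W (D.core σ).Fiber) : D.act σ n p = p := by
  have hU := D.tU p.1 p.1 (D.mem _)
  show D.Ψ σ (ρ.act n (D.t p.1 p.1)) (σ.act n (p.2 : W)) = _
  exact (D.Ψ_inv σ hn hU p.2).trans (D.Ψ_mk σ p)

omit hN in
theorem act_lift (g : G) (z : Z) : ∃ L : (D.core σ).Fiber z →ₗ[ℂ] (D.core σ).Fiber (g • z),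
    ∀ w : (D.core σ).Fiber z, D.act σ g (⟨z, w⟩ : TotalSpace W (D.core σ).Fiber) =
      ⟨g • z, L w⟩ := by
  let L : W →L[ℂ] W := (σ.act (D.ν (g • z) (ρ.act g (D.t z z)))⁻¹).comp (σ.act g)
  have hU := D.tU z z (D.mem z)
  have h1 : q (ρ.act g (D.t z z)) = g • z := by rw [D.pr.equi g _ hU, D.qt z z (D.mem z)]
  refine ⟨(L : W →ₗ[ℂ] W), fun w => ?_⟩
  refine D.mk_eq σ h1 ?_
  rw [h1]
  rfl

omit hN in
/-- values of the spray -/
theorem spr_Ψ (s : V × W → V) (hs : ∀ g y w, s (ρ.act g y, σ.act g w) = ρ.act g (s (y, w)))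
    (hsU : ∀ y ∈ U, ∀ w, s (y, w) ∈ U) {x : V} (hx : x ∈ U) (w : W) :
    D.spr σ s (D.Ψ σ x w) = q (s (x, w)) := by
  have hm := D.mem (q x)
  have h1 := D.νt (q x) x hx hm
  have hn := D.νN (q x) x hx hm
  have hU := D.tU (q x) (q x) hm
  show q (s (D.t (q x) (q x), σ.act (D.ν (q x) x)⁻¹ w)) = q (s (x, w))
  have h2 : s (D.t (q x) (q x), σ.act (D.ν (q x) x)⁻¹ w) =
      ρ.act (D.ν (q x) x)⁻¹ (s (x, w)) := by
    rw [← hs]
    have h3 : ρ.act (D.ν (q x) x)⁻¹ x = D.t (q x) (q x) := by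
      have h4 := congrArg (ρ.act (D.ν (q x) x)⁻¹) h1
      rw [GMod.act_inv_act] at h4
      exact h4.symm
    rw [h3]
  rw [h2, D.q_act (N.inv_mem hn) (hsU x hx w)]

end PData

end

end Pool.Agent.Work.MP_e4a69c_an.QT
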