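import Pool.Agent.Work.MP_e4a69c_an.ML.Core

/-! Quotients by free and proper actions: the definitions used in the statement. -/

set_option autoImplicit false

namespace Pool.Agent.Work.MP_e4a69c_an.QT

open scoped Manifold ContDiff Topology Bundle
open Bundle
open Pool.Agent.Work.MP_e4a69c_an.SU Pool.Agent.Work.MP_e4a69c_an.ML

section

variable {𝔤 : Type} [NormedAddCommGroup 𝔤] [NormedSpace ℂ 𝔤]
variable {G : Type} [TopologicalSpace G] [ChartedSpace 𝔤 G] [Group G]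
variable {ι : Type} [Fintype ι] {M : ι → Type} [∀ i, NormedAddCommGroup (M i)]
  [∀ i, NormedSpace ℂ (M i)]
variable {E : Type} [NormedAddCommGroup E] [NormedSpace ℂ E]

/-- `ρV` is the product of the modules `M i`. -/
def IsPiM (ρ : ∀ i, GMod 𝔤 G (M i)) (ρV : GMod 𝔤 G (∀ i, M i)) : Prop :=
  ∀ g x, ac ρV g x = fun i => ac (ρ i) g (x i)

/-- The map `F` is entire, equivariant, and affine in every variable `x i`. -/
structure IsMaff [DecidableEq ι] (ρV : GMod 𝔤 G (∀ i, M i)) (ρE : GMod 𝔤 G E)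
    (F : (∀ i, M i) → E) : Prop where
  hol : Differentiable ℂ F
  equi : ∀ g x, F (ac ρV g x) = ac ρE g (F x)
  aff : ∀ x i, IsLinearMap ℂ (fun m : M i => F (Function.update x i m) - F (Function.update x i 0))

end

section

variable (𝔤 : Type) [NormedAddCommGroup 𝔤] [NormedSpace ℂ 𝔤]
variable (G : Type) [TopologicalSpace G] [ChartedSpace 𝔤 G] [Group G]
variable (H : Type) [NormedAddCommGroup H] [NormedSpace ℂ H]
variable (Z : Type) [TopologicalSpace Z] [ChartedSpace H Z] [MulAction G Z]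

/-- The action of the complex Lie group `G` on the complex manifold `Z` is holomorphic. -/
def IsHolAct : Prop :=
  ContMDiff (𝓘(ℂ, 𝔤).prod 𝓘(ℂ, H)) 𝓘(ℂ, H) ∞ (fun q : G × Z => q.1 • q.2)

variable {Z} in
/-- `P` is a holomorphic vector bundle with fibre `W` on `Z`; on its total space `G` acts
holomorphically, by isomorphisms of bundles which lift the action on `Z`, and trivially for `N`; and
`s` is a G-equivariant holomorphic map from the total space to `Z` with `s(0_z) = z`, which on every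
fibre is a submersion at `0`. -/
structure IsBundleSpray (N : Subgroup G) (W : Type) [NormedAddCommGroup W] [NormedSpace ℂ W]
    (P : Z → Type) [TopologicalSpace (TotalSpace W P)] [∀ z, AddCommGroup (P z)]
    [∀ z, Module ℂ (P z)] [∀ z, TopologicalSpace (P z)] [FiberBundle W P] [VectorBundle ℂ W P]
    [MulAction G (TotalSpace W P)] (s : TotalSpace W P → Z) : Prop where
  bundle : ContMDiffVectorBundle ∞ W P 𝓘(ℂ, H)
  hol : ContMDiff (𝓘(ℂ, 𝔤).prod (𝓘(ℂ, H).prod 𝓘(ℂ, W))) (𝓘(ℂ, H).prod 𝓘(ℂ, W)) ∞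
    (fun q : G × TotalSpace W P => q.1 • q.2)
  lift : ∀ (g : G) (z : Z), ∃ L : P z →ₗ[ℂ] P (g • z),
    ∀ w : P z, g • (⟨z, w⟩ : TotalSpace W P) = ⟨g • z, L w⟩
  triv : ∀ n ∈ N, ∀ q : TotalSpace W P, n • q = q
  holS : ContMDiff (𝓘(ℂ, H).prod 𝓘(ℂ, W)) 𝓘(ℂ, H) ∞ s
  equiS : ∀ (g : G) (q : TotalSpace W P), s (g • q) = g • s q
  zeroS : ∀ z, s ⟨z, 0⟩ = z
  dom : ∀ z, Function.Surjective (mfderiv 𝓘(ℂ, W) 𝓘(ℂ, H)
    (fun w : W => s ((trivializationAt W P z).toOpenPartialHomeomorph.symm (z, w))) 0)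

/-- The G-manifold `Z`, on which `N` acts trivially, is `G/N`-elliptic: there are a holomorphic vector
bundle on `Z`, a lift of the action of `G/N`, and a map `s` as in `IsBundleSpray`. -/
def IsEllipticM (N : Subgroup G) : Prop :=
  ∃ (W : Type) (_ : NormedAddCommGroup W) (_ : NormedSpace ℂ W) (_ : FiniteDimensional ℂ W)
    (P : Z → Type) (_ : TopologicalSpace (TotalSpace W P)) (_ : ∀ z, AddCommGroup (P z))
    (_ : ∀ z, Module ℂ (P z)) (_ : ∀ z, TopologicalSpace (P z)) (_ : FiberBundle W P)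
    (_ : VectorBundle ℂ W P) (_ : MulAction G (TotalSpace W P)) (s : TotalSpace W P → Z),
    IsBundleSpray 𝔤 G H N W P s

variable {𝔤 G Z} {V : Type} [NormedAddCommGroup V] [NormedSpace ℂ V]

/-- `q : U → Z` is a G-equivariant holomorphic principal bundle with structure group the subgroup
`N` of `G`, `U` an open subset of the G-module `V`: `N` acts freely on `U` and trivially on `Z`, and locally on `Z`
there is a holomorphic section `t` such that `x = ν(x) t(q(x))` with `ν(x) ∈ N` holomorphic in `x`. -/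
structure IsPrinc (N : Subgroup G) (ρ : GMod 𝔤 G V) (U : Set V) (q : V → Z) : Prop where
  hol : ContMDiffOn 𝓘(ℂ, V) 𝓘(ℂ, H) ∞ q U
  stab : ∀ g, ∀ x ∈ U, ρ.act g x ∈ U
  equi : ∀ g, ∀ x ∈ U, q (ρ.act g x) = g • q x
  free : ∀ n ∈ N, ∀ x ∈ U, ρ.act n x = x → n = 1
  triv : ∀ n ∈ N, ∀ z : Z, n • z = z
  loc : ∀ c : Z, ∃ (O : Set Z) (t : Z → V) (ν : V → G), IsOpen O ∧ c ∈ O ∧
    ContMDiffOn 𝓘(ℂ, H) 𝓘(ℂ, V) ∞ t O ∧ (∀ z ∈ O, t z ∈ U ∧ q (t z) = z) ∧
    ContMDiffOn 𝓘(ℂ, V) 𝓘(ℂ, 𝔤) ∞ ν (U ∩ q ⁻¹' O) ∧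
    ∀ x ∈ U, q x ∈ O → ν x ∈ N ∧ ρ.act (ν x) (t (q x)) = x

end

end Pool.Agent.Work.MP_e4a69c_an.QT
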