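import Pool.Agent.Work.MP_e4a69c_an.QT.Core
import Pool.Agent.Work.MP_e4a69c_an.SU.Defs

/-! Quotients: the associated bundle. -/

set_option autoImplicit false

namespace Pool.Agent.Work.MP_e4a69c_an.QT

open scoped Manifold ContDiff Topology Bundle
open Bundle
open Pool.Agent.Work.MP_e4a69c_an.SU Pool.Agent.Work.MP_e4a69c_an.ML

section

variable {𝔤 : Type} [NormedAddCommGroup 𝔤] [NormedSpace ℂ 𝔤]
variable {G : Type} [TopologicalSpace G] [ChartedSpace 𝔤 G] [Group G]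
variable {H : Type} [NormedAddCommGroup H] [NormedSpace ℂ H]
variable {Z : Type} [TopologicalSpace Z] [ChartedSpace H Z] [MulAction G Z]
variable {V : Type} [NormedAddCommGroup V] [NormedSpace ℂ V]
variable {W : Type} [NormedAddCommGroup W] [NormedSpace ℂ W]

/-- Chosen local sections `t c` on `O c` and the maps `ν c`, for every point `c` of `Z`. -/
structure PData (H : Type) [NormedAddCommGroup H] [NormedSpace ℂ H] [ChartedSpace H Z]
    (N : Subgroup G) (ρ : GMod 𝔤 G V) (U : Set V) (q : V → Z) where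
  pr : IsPrinc H N ρ U q
  O : Z → Set Z
  t : Z → Z → V
  ν : Z → V → G
  isOpen : ∀ c, IsOpen (O c)
  mem : ∀ c, c ∈ O c
  holt : ∀ c, ContMDiffOn 𝓘(ℂ, H) 𝓘(ℂ, V) ∞ (t c) (O c)
  tU : ∀ c, ∀ z ∈ O c, t c z ∈ U
  qt : ∀ c, ∀ z ∈ O c, q (t c z) = z
  holν : ∀ c, ContMDiffOn 𝓘(ℂ, V) 𝓘(ℂ, 𝔤) ∞ (ν c) (U ∩ q ⁻¹' O c)
  νN : ∀ c, ∀ x ∈ U, q x ∈ O c → ν c x ∈ N
  νt : ∀ c, ∀ x ∈ U, q x ∈ O c → ρ.act (ν c x) (t c (q x)) = x

theorem exists_PData (N : Subgroup G) (ρ : GMod 𝔤 G V) (U : Set V) (q : V → Z)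
    (h : IsPrinc H N ρ U q) : Nonempty (PData H N ρ U q) := by
  choose O t ν h1 h2 h3 h4 h5 h6 using h.loc
  exact ⟨⟨h, O, t, ν, h1, h2, h3, fun c z hz => (h4 c z hz).1, fun c z hz => (h4 c z hz).2, h5,
    fun c x hx hq => (h6 c x hx hq).1, fun c x hx hq => (h6 c x hx hq).2⟩⟩

variable {N : Subgroup G} {ρ : GMod 𝔤 G V} {U : Set V} {q : V → Z}

namespace PData

variable (D : PData H N ρ U q)

include D in
/-- freeness -/
theorem uniq {n m : G} (hn : n ∈ N) (hm : m ∈ N) {x : V} (hx : x ∈ U)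
    (h : ρ.act n x = ρ.act m x) : n = m := by
  have h1 : ρ.act (m⁻¹ * n) x = x := by
    rw [GMod.act_mul, h, ← GMod.act_mul, inv_mul_cancel, GMod.act_one]
  have h2 := D.pr.free _ (N.mul_mem (N.inv_mem hm) hn) x hx h1
  rw [inv_mul_eq_one] at h2
  exact h2.symm

include D in
theorem q_act {n : G} (hn : n ∈ N) {x : V} (hx : x ∈ U) : q (ρ.act n x) = q x := by
  rw [D.pr.equi n x hx, D.pr.triv n hn]

theorem ν_act (c : Z) {n : G} (hn : n ∈ N) {x : V} (hx : x ∈ U) (hq : q x ∈ D.O c) :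
    D.ν c (ρ.act n x) = n * D.ν c x := by
  have hq' : q (ρ.act n x) ∈ D.O c := by rw [D.q_act hn hx]; exact hq
  have hU := D.pr.stab n x hx
  refine D.uniq (D.νN c _ hU hq') (N.mul_mem hn (D.νN c x hx hq)) (D.tU c _ hq) ?_
  have h1 := D.νt c _ hU hq'
  rw [D.q_act hn hx] at h1
  rw [h1, GMod.act_mul, D.νt c x hx hq]

theorem ν_t (c : Z) {z : Z} (hz : z ∈ D.O c) : D.ν c (D.t c z) = 1 := by
  have hU := D.tU c z hz
  have hq : q (D.t c z) ∈ D.O c := by rw [D.qt c z hz]; exact hz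
  refine D.uniq (D.νN c _ hU hq) N.one_mem hU ?_
  have h1 := D.νt c _ hU hq
  rw [D.qt c z hz] at h1
  rw [h1, GMod.act_one]

/-- cocycle identity -/
theorem ν_comp (c c' : Z) {x : V} (hx : x ∈ U) (hc : q x ∈ D.O c) (hc' : q x ∈ D.O c') :
    D.ν c x * D.ν c' (D.t c (q x)) = D.ν c' x := by
  have h1 := D.νt c x hx hc
  have h2 : D.ν c' (ρ.act (D.ν c x) (D.t c (q x))) =
      D.ν c x * D.ν c' (D.t c (q x)) := by
    refine D.ν_act c' (D.νN c x hx hc) (D.tU c _ hc) ?_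
    rw [D.qt c _ hc]
    exact hc'
  rw [← h2, h1]

/-- the transition functions are holomorphic -/
theorem holcc [LieGroup 𝓘(ℂ, 𝔤) ω G] (σ : GMod 𝔤 G W) (i j : Z) :
    ContMDiffOn 𝓘(ℂ, H) 𝓘(ℂ, W →L[ℂ] W) ∞ (fun z => σ.act (D.ν j (D.t i z))⁻¹)
      (D.O i ∩ D.O j) := by
  have h1 : ContMDiffOn 𝓘(ℂ, H) 𝓘(ℂ, 𝔤) ∞ (fun z => D.ν j (D.t i z)) (D.O i ∩ D.O j) := by
    refine (D.holν j).comp ((D.holt i).mono Set.inter_subset_left) ?_
    intro z hz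
    refine ⟨D.tU i z hz.1, ?_⟩
    show q (D.t i z) ∈ D.O j
    rw [D.qt i z hz.1]
    exact hz.2
  have h2 : ContMDiffOn 𝓘(ℂ, H) 𝓘(ℂ, 𝔤) ∞ (fun z => (D.ν j (D.t i z))⁻¹) (D.O i ∩ D.O j) := h1.inv
  exact (σ.hol.of_le le_top).comp_contMDiffOn h2

theorem cc_comp (σ : GMod 𝔤 G W) (i j k : Z) {z : Z} (hi : z ∈ D.O i) (hj : z ∈ D.O j)
    (hk : z ∈ D.O k) (w : W) :
    σ.act (D.ν k (D.t j z))⁻¹ (σ.act (D.ν j (D.t i z))⁻¹ w) = σ.act (D.ν k (D.t i z))⁻¹ w := by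
  have hU := D.tU i z hi
  have hq := D.qt i z hi
  have h1 := D.ν_comp j k hU (by rw [hq]; exact hj) (by rw [hq]; exact hk)
  rw [hq] at h1
  rw [← GMod.act_mul, ← mul_inv_rev, h1]

/-- the vector bundle `U ×_N W` on `Z` -/
noncomputable def core [LieGroup 𝓘(ℂ, 𝔤) ω G] (σ : GMod 𝔤 G W) : VectorBundleCore ℂ Z W Z where
  baseSet := D.O
  isOpen_baseSet := D.isOpen
  indexAt := id
  mem_baseSet_at := D.mem
  coordChange := fun i j z => σ.act (D.ν j (D.t i z))⁻¹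
  coordChange_self := by
    intro i z hz w
    rw [D.ν_t i hz, inv_one, GMod.act_one]
  continuousOn_coordChange := fun i j => (D.holcc σ i j).continuousOn
  coordChange_comp := by
    intro i j k z hz w
    exact D.cc_comp σ i j k hz.1.1 hz.1.2 hz.2 w

instance isContMDiff_core [LieGroup 𝓘(ℂ, 𝔤) ω G] (σ : GMod 𝔤 G W) :
    (D.core σ).IsContMDiff 𝓘(ℂ, H) ∞ := ⟨fun i j => D.holcc σ i j⟩

/-- the class `[x,w]` -/
noncomputable def Ψ [LieGroup 𝓘(ℂ, 𝔤) ω G] (σ : GMod 𝔤 G W) (x : V) (w : W) :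
    TotalSpace W (D.core σ).Fiber :=
  ⟨q x, (σ.act (D.ν (q x) x)⁻¹ w : W)⟩

/-- the action on the bundle: `g [x,w] = [g x, g w]` -/
noncomputable def act [LieGroup 𝓘(ℂ, 𝔤) ω G] (σ : GMod 𝔤 G W) (g : G)
    (p : TotalSpace W (D.core σ).Fiber) : TotalSpace W (D.core σ).Fiber :=
  D.Ψ σ (ρ.act g (D.t p.1 p.1)) (σ.act g (p.2 : W))

/-- the spray on the quotient: `[x,w] ↦ q(s(x,w))` -/
noncomputable def spr [LieGroup 𝓘(ℂ, 𝔤) ω G] (σ : GMod 𝔤 G W) (s : V × W → V)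
    (p : TotalSpace W (D.core σ).Fiber) : Z := q (s (D.t p.1 p.1, (p.2 : W)))

end PData

end

end Pool.Agent.Work.MP_e4a69c_an.QT
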