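import Pool.Agent.Work.MP_e4a69c_an.QT.Basic

/-! Quotients: holomorphy of the action and of the spray. -/

set_option autoImplicit false

namespace Pool.Agent.Work.MP_e4a69c_an.QT

open scoped Manifold ContDiff Topology Bundle
open Bundle
open Pool.Agent.Work.MP_e4a69c_an.SU Pool.Agent.Work.MP_e4a69c_an.ML

section

variable {𝔤 : Type} [NormedAddCommGroup 𝔤] [NormedSpace ℂ 𝔤]
variable {G : Type} [TopologicalSpace G] [ChartedSpace 𝔤 G] [Group G] [LieGroup 𝓘(ℂ, 𝔤) ω G]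
variable {H : Type} [NormedAddCommGroup H] [NormedSpace ℂ H]
variable {Z : Type} [TopologicalSpace Z] [ChartedSpace H Z] [MulAction G Z]
variable {V : Type} [NormedAddCommGroup V] [NormedSpace ℂ V]
variable {W : Type} [NormedAddCommGroup W] [NormedSpace ℂ W]
variable {N : Subgroup G} {ρ : GMod 𝔤 G V} {U : Set V} {q : V → Z}

namespace PData

variable (D : PData H N ρ U q) (σ : GMod 𝔤 G W)

theorem triv_at (c : Z) : trivializationAt W (D.core σ).Fiber c = (D.core σ).localTriv c := rfl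

theorem hol_lt (c : Z) : ContMDiffOn (𝓘(ℂ, H).prod 𝓘(ℂ, W)) 𝓘(ℂ, W) ∞
    (fun p : TotalSpace W (D.core σ).Fiber => ((D.core σ).localTriv c p).2)
    {p | p.proj ∈ D.O c} := by
  have h1 := (trivializationAt W (D.core σ).Fiber c).contMDiffOn (IB := 𝓘(ℂ, H)) (n := ∞)
  rw [D.triv_at σ c] at h1
  have h2 : ContMDiffOn (𝓘(ℂ, H).prod 𝓘(ℂ, W)) 𝓘(ℂ, W) ∞
    (fun p : TotalSpace W (D.core σ).Fiber => ((D.core σ).localTriv c p).2)
    ((D.core σ).localTriv c).source := fun p hp => (h1 p hp).snd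
  refine h2.mono ?_
  intro p hp
  rw [Trivialization.mem_source]
  exact hp

theorem isOpen_pre (c : Z) : IsOpen {p : TotalSpace W (D.core σ).Fiber | p.proj ∈ D.O c} :=
  (D.isOpen c).preimage (FiberBundle.continuous_proj W (D.core σ).Fiber)

theorem act_proj (g : G) (p : TotalSpace W (D.core σ).Fiber) :
    (D.act σ g p).proj = g • p.proj := by
  have hU := D.tU p.1 p.1 (D.mem _)
  show q (ρ.act g (D.t p.1 p.1)) = g • p.1
  rw [D.pr.equi g _ hU, D.qt p.1 p.1 (D.mem _)]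

variable [hN : N.Normal]

theorem act_hol (hZ : IsHolAct 𝔤 G H Z) :
    ContMDiff (𝓘(ℂ, 𝔤).prod (𝓘(ℂ, H).prod 𝓘(ℂ, W))) (𝓘(ℂ, H).prod 𝓘(ℂ, W)) ∞
      (fun r : G × TotalSpace W (D.core σ).Fiber => D.act σ r.1 r.2) := by
  intro r0
  have hproj : ContMDiff (𝓘(ℂ, 𝔤).prod (𝓘(ℂ, H).prod 𝓘(ℂ, W))) 𝓘(ℂ, H) ∞
      (fun r : G × TotalSpace W (D.core σ).Fiber => r.2.proj) :=
    (contMDiff_proj (D.core σ).Fiber).comp contMDiff_snd
  have hpr : ContMDiff (𝓘(ℂ, 𝔤).prod (𝓘(ℂ, H).prod 𝓘(ℂ, W))) 𝓘(ℂ, H) ∞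
      (fun r : G × TotalSpace W (D.core σ).Fiber => r.1 • r.2.proj) :=
    ContMDiff.comp (g := fun q : G × Z => q.1 • q.2) hZ (contMDiff_fst.prodMk hproj)
  rw [contMDiffAt_totalSpace]
  refine ⟨?_, ?_⟩
  · have h1 : (fun r : G × TotalSpace W (D.core σ).Fiber => (D.act σ r.1 r.2).proj) =
        fun r => r.1 • r.2.proj := funext fun r => D.act_proj σ r.1 r.2
    rw [h1]
    exact hpr.contMDiffAt
  · rw [D.act_proj σ r0.1 r0.2, D.triv_at σ]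
    set c := r0.1 • r0.2.proj with hc
    set c0 := r0.2.proj with hc0
    let S : Set (G × TotalSpace W (D.core σ).Fiber) :=
      {r | r.2.proj ∈ D.O c0 ∧ r.1 • r.2.proj ∈ D.O c}
    have hS : IsOpen S :=
      ((D.isOpen c0).preimage hproj.continuous).inter ((D.isOpen c).preimage hpr.continuous)
    have hr0 : r0 ∈ S := ⟨D.mem _, D.mem _⟩
    have ht : ContMDiffOn (𝓘(ℂ, 𝔤).prod (𝓘(ℂ, H).prod 𝓘(ℂ, W))) 𝓘(ℂ, V) ∞
        (fun r : G × TotalSpace W (D.core σ).Fiber => D.t c0 r.2.proj) S :=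
      (D.holt c0).comp hproj.contMDiffOn (fun r hr => hr.1)
    have hb : ContMDiffOn (𝓘(ℂ, 𝔤).prod (𝓘(ℂ, H).prod 𝓘(ℂ, W))) 𝓘(ℂ, V) ∞
        (fun r : G × TotalSpace W (D.core σ).Fiber => ρ.act r.1 (D.t c0 r.2.proj)) S :=
      ContMDiffOn.clm_apply ((ρ.hol.of_le le_top).comp contMDiff_fst).contMDiffOn ht
    have hν : ContMDiffOn (𝓘(ℂ, 𝔤).prod (𝓘(ℂ, H).prod 𝓘(ℂ, W))) 𝓘(ℂ, 𝔤) ∞
        (fun r : G × TotalSpace W (D.core σ).Fiber =>
          (D.ν c (ρ.act r.1 (D.t c0 r.2.proj)))⁻¹) S := by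
      refine ContMDiffOn.inv ?_
      refine (D.holν c).comp hb ?_
      intro r hr
      have hU := D.tU c0 r.2.proj hr.1
      refine ⟨D.pr.stab r.1 _ hU, ?_⟩
      show q (ρ.act r.1 (D.t c0 r.2.proj)) ∈ D.O c
      rw [D.pr.equi r.1 _ hU, D.qt c0 _ hr.1]
      exact hr.2
    have hw : ContMDiffOn (𝓘(ℂ, 𝔤).prod (𝓘(ℂ, H).prod 𝓘(ℂ, W))) 𝓘(ℂ, W) ∞
        (fun r : G × TotalSpace W (D.core σ).Fiber => ((D.core σ).localTriv c0 r.2).2) S :=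
      (D.hol_lt σ c0).comp contMDiff_snd.contMDiffOn (fun r hr => hr.1)
    have hall : ContMDiffOn (𝓘(ℂ, 𝔤).prod (𝓘(ℂ, H).prod 𝓘(ℂ, W))) 𝓘(ℂ, W) ∞
        (fun r : G × TotalSpace W (D.core σ).Fiber =>
          σ.act (D.ν c (ρ.act r.1 (D.t c0 r.2.proj)))⁻¹
            (σ.act r.1 ((D.core σ).localTriv c0 r.2).2)) S :=
      ContMDiffOn.clm_apply ((σ.hol.of_le le_top).comp_contMDiffOn hν)
        (ContMDiffOn.clm_apply ((σ.hol.of_le le_top).comp contMDiff_fst).contMDiffOn hw)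
    refine (hall.contMDiffAt (hS.mem_nhds hr0)).congr_of_eventuallyEq ?_
    filter_upwards [hS.mem_nhds hr0] with r hr
    have hU := D.tU c0 r.2.proj hr.1
    conv_lhs => rw [D.eq_Ψ σ c0 r.2 hr.1]
    rw [D.act_Ψ σ r.1 hU, D.localTriv_Ψ σ c (D.pr.stab r.1 _ hU)]
    rw [D.pr.equi r.1 _ hU, D.qt c0 _ hr.1]
    exact hr.2

omit hN in
theorem spr_hol (s : V × W → V) (hs : ∀ g y w, s (ρ.act g y, σ.act g w) = ρ.act g (s (y, w)))
    (hsU : ∀ y ∈ U, ∀ w, s (y, w) ∈ U) (hsd : ContMDiff 𝓘(ℂ, V × W) 𝓘(ℂ, V) ∞ s) :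
    ContMDiff (𝓘(ℂ, H).prod 𝓘(ℂ, W)) 𝓘(ℂ, H) ∞ (D.spr σ s) := by
  intro p0
  set c := p0.proj with hc
  have hp0 : p0 ∈ {p : TotalSpace W (D.core σ).Fiber | p.proj ∈ D.O c} := D.mem _
  have h1 : ContMDiffOn (𝓘(ℂ, H).prod 𝓘(ℂ, W)) 𝓘(ℂ, V) ∞
      (fun p : TotalSpace W (D.core σ).Fiber => D.t c p.proj) {p | p.proj ∈ D.O c} :=
    (D.holt c).comp (contMDiff_proj (D.core σ).Fiber).contMDiffOn (fun p hp => hp)
  have h2 : ContMDiffOn (𝓘(ℂ, H).prod 𝓘(ℂ, W)) 𝓘(ℂ, V × W) ∞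
      (fun p : TotalSpace W (D.core σ).Fiber => (D.t c p.proj, ((D.core σ).localTriv c p).2))
      {p | p.proj ∈ D.O c} := h1.prodMk_space (D.hol_lt σ c)
  have h3 : ContMDiffOn (𝓘(ℂ, H).prod 𝓘(ℂ, W)) 𝓘(ℂ, V) ∞
      (fun p : TotalSpace W (D.core σ).Fiber =>
        s (D.t c p.proj, ((D.core σ).localTriv c p).2)) {p | p.proj ∈ D.O c} :=
    hsd.comp_contMDiffOn h2
  have h4 : ContMDiffOn (𝓘(ℂ, H).prod 𝓘(ℂ, W)) 𝓘(ℂ, H) ∞
      (fun p : TotalSpace W (D.core σ).Fiber =>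
        q (s (D.t c p.proj, ((D.core σ).localTriv c p).2))) {p | p.proj ∈ D.O c} :=
    D.pr.hol.comp h3 (fun p hp => hsU _ (D.tU c _ hp) _)
  refine (h4.contMDiffAt ((D.isOpen_pre σ c).mem_nhds hp0)).congr_of_eventuallyEq ?_
  filter_upwards [(D.isOpen_pre σ c).mem_nhds hp0] with p hp
  conv_lhs => rw [D.eq_Ψ σ c p hp]
  rw [D.spr_Ψ σ s hs hsU (D.tU c _ hp)]

end PData

end

end Pool.Agent.Work.MP_e4a69c_an.QT
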