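import Pool.Agent.Work.MP_e4a69c_an.QT.Hol
import Pool.Agent.Work.MP_e4a69c_an.CM.Main

/-! Quotients: the spray is dominating; the theorem. -/

set_option autoImplicit false

namespace Pool.Agent.Work.MP_e4a69c_an.QT

open scoped Manifold ContDiff Topology Bundle
open Bundle
open Pool.Agent.Work.MP_e4a69c_an.SU Pool.Agent.Work.MP_e4a69c_an.ML

section

variable {𝔤 : Type} [NormedAddCommGroup 𝔤] [NormedSpace ℂ 𝔤]
variable {G : Type} [TopologicalSpace G] [ChartedSpace 𝔤 G] [Group G] [LieGroup 𝓘(ℂ, 𝔤) ω G]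
variable {H : Type} [NormedAddCommGroup H] [NormedSpace ℂ H]
variable {Z : Type} [TopologicalSpace Z] [ChartedSpace H Z] [MulAction G Z]
variable {V : Type} [NormedAddCommGroup V] [NormedSpace ℂ V]
variable {W : Type} [NormedAddCommGroup W] [NormedSpace ℂ W]
variable {N : Subgroup G} {ρ : GMod 𝔤 G V} {U : Set V} {q : V → Z}

theorem mf_congr (q : V → Z) {x y : V} (h : x = y) :
    (mfderiv 𝓘(ℂ, V) 𝓘(ℂ, H) q x : V →L[ℂ] H) = (mfderiv 𝓘(ℂ, V) 𝓘(ℂ, H) q y : V →L[ℂ] H) := by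
  subst h
  rfl

namespace PData

variable (D : PData H N ρ U q) (σ : GMod 𝔤 G W)

theorem spr_dom [IsManifold 𝓘(ℂ, H) ∞ Z] (hUo : IsOpen U) (s : V × W → V)
    (hsd : Differentiable ℂ s)
    (hs0 : ∀ y ∈ U, s (y, 0) = y)
    (hd : ∀ y ∈ U, ∀ τ : V, ∃ w : W, fderiv ℂ (fun w : W => s (y, w)) 0 w = τ) (z : Z) :
    Function.Surjective (mfderiv 𝓘(ℂ, W) 𝓘(ℂ, H) (fun w : W => D.spr σ s
      ((trivializationAt W (D.core σ).Fiber z).toOpenPartialHomeomorph.symm (z, w))) 0) := by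
  have hy := D.tU z z (D.mem z)
  have hfun : (fun w : W => D.spr σ s
      ((trivializationAt W (D.core σ).Fiber z).toOpenPartialHomeomorph.symm (z, w))) =
      q ∘ (fun w : W => s (D.t z z, w)) := by
    funext w
    have h1 : σ.act (D.ν z (D.t z z))⁻¹ w = w := by
      rw [D.ν_t z (D.mem z), inv_one, GMod.act_one]
    show q (s (D.t z z, σ.act (D.ν z (D.t z z))⁻¹ w)) = q (s (D.t z z, w))
    rw [h1]
  rw [hfun]
  have hq : MDifferentiableAt 𝓘(ℂ, V) 𝓘(ℂ, H) q (D.t z z) :=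
    (D.pr.hol.contMDiffAt (hUo.mem_nhds hy)).mdifferentiableAt (by simp)
  have ht : MDifferentiableAt 𝓘(ℂ, H) 𝓘(ℂ, V) (D.t z) z :=
    ((D.holt z).contMDiffAt ((D.isOpen z).mem_nhds (D.mem z))).mdifferentiableAt (by simp)
  have hid : mfderiv 𝓘(ℂ, H) 𝓘(ℂ, H) (q ∘ D.t z) z = ContinuousLinearMap.id ℂ _ := by
    have h1 : q ∘ D.t z =ᶠ[𝓝 z] id := by
      filter_upwards [(D.isOpen z).mem_nhds (D.mem z)] with z' hz'
      exact D.qt z z' hz'
    rw [h1.mfderiv_eq, mfderiv_id]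
  rw [mfderiv_comp z hq ht] at hid
  have hgd : DifferentiableAt ℂ (fun w : W => s (D.t z z, w)) 0 :=
    (hsd.comp ((differentiable_const _).prodMk differentiable_id)).differentiableAt
  have hg : MDifferentiableAt 𝓘(ℂ, W) 𝓘(ℂ, V) (fun w : W => s (D.t z z, w)) 0 :=
    hgd.mdifferentiableAt
  have hg0 : (fun w : W => s (D.t z z, w)) 0 = D.t z z := hs0 _ hy
  have hq' : MDifferentiableAt 𝓘(ℂ, V) 𝓘(ℂ, H) q ((fun w : W => s (D.t z z, w)) 0) := by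
    rw [hg0]; exact hq
  rw [mfderiv_comp 0 hq' hg]
  have hA : (mfderiv 𝓘(ℂ, V) 𝓘(ℂ, H) q ((fun w : W => s (D.t z z, w)) 0) : V →L[ℂ] H) =
      (mfderiv 𝓘(ℂ, V) 𝓘(ℂ, H) q (D.t z z) : V →L[ℂ] H) := mf_congr q hg0
  have hB : (mfderiv 𝓘(ℂ, W) 𝓘(ℂ, V) (fun w : W => s (D.t z z, w)) 0 : W →L[ℂ] V) =
      fderiv ℂ (fun w : W => s (D.t z z, w)) 0 := mfderiv_eq_fderiv
  intro h
  obtain ⟨w, hw⟩ := hd _ hy ((mfderiv 𝓘(ℂ, H) 𝓘(ℂ, V) (D.t z) z : H →L[ℂ] V) h)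
  refine ⟨w, ?_⟩
  have key : ∀ (A' A : V →L[ℂ] H) (B' B : W →L[ℂ] V) (T : H →L[ℂ] V), A' = A → B' = B →
      A.comp T = ContinuousLinearMap.id ℂ H → ∀ (h : H) (w : W), B w = T h → A' (B' w) = h := by
    intro A' A B' B T e1 e2 e3 h w e4
    rw [e1, e2, e4]
    exact congrArg (fun L : H →L[ℂ] H => L h) e3
  exact key _ _ _ _ _ hA hB hid h w hw

end PData

/-- the quotient theorem -/
theorem quot [FiniteDimensional ℂ V] [hN : N.Normal] [IsManifold 𝓘(ℂ, H) ∞ Z] (hUo : IsOpen U) (hZ : IsHolAct 𝔤 G H Z)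
    (hq : IsPrinc H N ρ U q) (hell : GEll ρ U (fun _ => Set.univ)) :
    IsEllipticM 𝔤 G H Z N := by
  obtain ⟨W, iW1, iW2, iW3, σ, s, h1, h2, h3, h4, h5⟩ := hell
  obtain ⟨D⟩ := exists_PData N ρ U q hq
  have hsd : ContMDiff 𝓘(ℂ, V × W) 𝓘(ℂ, V) ∞ s := by
    have h6 : ContDiff ℂ ∞ s := contDiff_infty.2 (fun n => IGO.cd n s h1)
    exact h6.contMDiff
  let act : MulAction G (TotalSpace W (D.core σ).Fiber) :=
    { smul := D.act σ
      one_smul := D.act_one' σ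
      mul_smul := fun g h p => D.act_mul' σ g h p }
  refine ⟨W, iW1, iW2, iW3, (D.core σ).Fiber, inferInstance, inferInstance, inferInstance,
    inferInstance, inferInstance, inferInstance, act, D.spr σ s, ?_⟩
  refine ⟨inferInstance, D.act_hol σ hZ, fun g z => D.act_lift σ g z,
    fun n hn p => D.act_N σ hn p, D.spr_hol σ s h4 h3 hsd, ?_, ?_, ?_⟩
  · intro g p
    have hU := D.tU p.1 p.1 (D.mem _)
    show D.spr σ s (D.Ψ σ (ρ.act g (D.t p.1 p.1)) (σ.act g (p.2 : W))) = g • D.spr σ s p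
    rw [D.spr_Ψ σ s h4 h3 (D.pr.stab g _ hU)]
    have key : ∀ w : W, q (s (ρ.act g (D.t p.1 p.1), σ.act g w)) = g • q (s (D.t p.1 p.1, w)) := by
      intro w
      rw [h4, D.pr.equi g _ (h3 _ hU _)]
    exact key p.2
  · intro z
    show q (s (D.t z z, 0)) = z
    rw [h2 _ (D.tU z z (D.mem z)), D.qt z z (D.mem z)]
  · intro z
    exact D.spr_dom σ hUo s h1 h2 (fun y hy τ => h5 y hy τ (Set.mem_univ _)) z

end

/-- Quotients of complements of multiaffine zero sets. -/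
theorem main :
    ∀ (𝔤 : Type) [NormedAddCommGroup 𝔤] [NormedSpace ℂ 𝔤]
      (G : Type) [TopologicalSpace G] [ChartedSpace 𝔤 G] [Group G] [LieGroup 𝓘(ℂ, 𝔤) ω G]
      (N : Subgroup G) [N.Normal]
      (ι : Type) [Fintype ι] [DecidableEq ι] (M : ι → Type)
      [∀ i, NormedAddCommGroup (M i)] [∀ i, NormedSpace ℂ (M i)]
      [∀ i, FiniteDimensional ℂ (M i)]
      (E : Type) [NormedAddCommGroup E] [NormedSpace ℂ E] [FiniteDimensional ℂ E]
      (ρ : ∀ i, GMod 𝔤 G (M i)) (ρE : GMod 𝔤 G E) (ρV : GMod 𝔤 G (∀ i, M i))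
      (F : (∀ i, M i) → E)
      (H : Type) [NormedAddCommGroup H] [NormedSpace ℂ H]
      (Z : Type) [TopologicalSpace Z] [ChartedSpace H Z] [IsManifold 𝓘(ℂ, H) ∞ Z]
      [MulAction G Z] (q : (∀ i, M i) → Z),
      IsPiM ρ ρV → IsMaff ρV ρE F → IsHolAct 𝔤 G H Z →
        IsPrinc H N ρV {x | F x ≠ 0} q → IsEllipticM 𝔤 G H Z N := by
  intro 𝔤 _ _ G _ _ _ _ N _ ι _ _ M _ _ _ E _ _ _ ρ ρE ρV F H _ _ Z _ _ _ _ q h1 h2 h3 h4
  refine quot ?_ h3 h4 (CM.complement ρ ρE ρV F h1 h2.hol h2.equi h2.aff)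
  exact isOpen_ne_fun h2.hol.continuous continuous_const

end Pool.Agent.Work.MP_e4a69c_an.QT
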